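import Mathlib
import Pool.Agent.PK5.Semi

/-!
# Packing polynomials on almost all sectors

For all but countably many `α > 0` there is no packing polynomial (of any degree) on `I(α)`; this
remains true if finitely many values may be missed. Every polynomial serves at most one sector, and
the slope of this sector is algebraic or upper semicomputable.
-/

open MvPolynomial

namespace Pool.Agent.Results.MP_b29235_co.AlmostAllSectors

/-- `F` restricted to the lattice points of the sector `0 ≤ y ≤ α x` is a bijection onto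
`{0, 1, 2, …} \ E`; for `E = ∅` this says that `F` is a packing polynomial on `I(α)`. -/
def PacksOff (α : ℝ) (F : MvPolynomial (Fin 2) ℝ) (E : Set ℕ) : Prop :=
  Set.BijOn (fun P : ℕ × ℕ => MvPolynomial.eval ![(P.1 : ℝ), (P.2 : ℝ)] F)
    {P : ℕ × ℕ | (P.2 : ℝ) ≤ α * P.1} ((fun n : ℕ => (n : ℝ)) '' Eᶜ)

/-- a polynomial packs at most one sector -/
theorem lt_absurd {F : MvPolynomial (Fin 2) ℝ} {α β : ℝ} {E E' : Set ℕ} (h0 : 0 < α)
    (hE : E.Finite) (hα : PacksOff α F E) (hβ : PacksOff β F E') (hlt : α < β) : False := by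
  obtain ⟨r, hr1, hr2⟩ := exists_rat_btwn hlt
  have hr0 : (0 : ℝ) < (r : ℝ) := h0.trans hr1
  have hrq : 0 < r := by exact_mod_cast hr0
  have hden : (0 : ℝ) < (r.den : ℝ) := by exact_mod_cast r.den_pos
  obtain ⟨p, hp⟩ : ∃ p : ℕ, r.num = (p : ℤ) :=
    ⟨r.num.toNat, (Int.toNat_of_nonneg (Rat.num_pos.2 hrq).le).symm⟩
  have hpr : (p : ℝ) = r * r.den := by
    have h1 : ((r.num : ℤ) : ℝ) = r * r.den := by
      have := Rat.mul_den_eq_num r
      exact_mod_cast this.symm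
    rw [← h1, hp]
    norm_num
  -- the lattice points on the ray of slope `r`
  let Q : ℕ → ℕ × ℕ := fun m => (r.den * (m + 1), p * (m + 1))
  have hQβ : ∀ m, ((Q m).2 : ℝ) ≤ β * (Q m).1 := by
    intro m
    show ((p * (m + 1) : ℕ) : ℝ) ≤ β * ((r.den * (m + 1) : ℕ) : ℝ)
    push_cast
    rw [hpr]
    have h2 : (0 : ℝ) < (r.den : ℝ) * ((m : ℝ) + 1) := by positivity
    nlinarith [mul_le_mul_of_nonneg_right hr2.le h2.le]
  have hQα : ∀ m, ¬ ((Q m).2 : ℝ) ≤ α * (Q m).1 := by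
    intro m
    show ¬ ((p * (m + 1) : ℕ) : ℝ) ≤ α * ((r.den * (m + 1) : ℕ) : ℝ)
    push_cast
    rw [hpr, not_le]
    have h2 : (0 : ℝ) < (r.den : ℝ) * ((m : ℝ) + 1) := by positivity
    nlinarith [mul_lt_mul_of_pos_right hr1 h2]
  have hQinj : Function.Injective Q := by
    intro m m' h
    have h1 : r.den * (m + 1) = r.den * (m' + 1) := congrArg Prod.fst h
    have h2 := Nat.eq_of_mul_eq_mul_left r.den_pos h1
    omega
  -- their values are natural numbers missed by `F` on `I(α)`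
  have hval : ∀ m, ∃ n : ℕ, (n : ℝ) =
      MvPolynomial.eval ![((Q m).1 : ℝ), ((Q m).2 : ℝ)] F := by
    intro m
    obtain ⟨n, -, hn⟩ := hβ.mapsTo (hQβ m)
    exact ⟨n, hn⟩
  choose v hv using hval
  have hvE : ∀ m, v m ∈ E := by
    intro m
    by_contra hm
    obtain ⟨P, hP, hPv⟩ := hα.surjOn ⟨v m, hm, rfl⟩
    have hPβ : (P.2 : ℝ) ≤ β * P.1 := by
      have h3 : (0 : ℝ) ≤ (P.1 : ℝ) := Nat.cast_nonneg _
      have h4 : (P.2 : ℝ) ≤ α * P.1 := hP
      nlinarith [mul_le_mul_of_nonneg_right hlt.le h3]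
    have h5 : MvPolynomial.eval ![(P.1 : ℝ), (P.2 : ℝ)] F =
        MvPolynomial.eval ![((Q m).1 : ℝ), ((Q m).2 : ℝ)] F := by
      rw [← hv m]
      exact hPv
    have h6 : P = Q m := hβ.injOn hPβ (hQβ m) h5
    exact hQα m (h6 ▸ hP)
  have hvinj : Function.Injective v := by
    intro m m' h
    apply hQinj
    apply hβ.injOn (hQβ m) (hQβ m')
    show MvPolynomial.eval ![((Q m).1 : ℝ), ((Q m).2 : ℝ)] F =
      MvPolynomial.eval ![((Q m').1 : ℝ), ((Q m').2 : ℝ)] F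
    rw [← hv m, ← hv m', h]
  exact Set.infinite_of_injective_forall_mem hvinj hvE hE

theorem unique {F : MvPolynomial (Fin 2) ℝ} {α β : ℝ} {E E' : Set ℕ} (hα0 : 0 < α) (hβ0 : 0 < β)
    (hE : E.Finite) (hE' : E'.Finite) (hα : PacksOff α F E) (hβ : PacksOff β F E') : α = β := by
  rcases lt_trichotomy α β with h | h | h
  · exact (lt_absurd hα0 hE hα hβ h).elim
  · exact h
  · exact (lt_absurd hβ0 hE' hβ hα h).elim

/-- a polynomial is determined by its values on a grid -/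
theorem ext_grid {F G : MvPolynomial (Fin 2) ℝ} {d a : ℕ} (hF : F.totalDegree ≤ d)
    (hG : G.totalDegree ≤ d)
    (h : ∀ i j : Fin (d + 1), MvPolynomial.eval ![((a + i : ℕ) : ℝ), ((j : ℕ) : ℝ)] F =
      MvPolynomial.eval ![((a + i : ℕ) : ℝ), ((j : ℕ) : ℝ)] G) : F = G := by
  classical
  rw [← sub_eq_zero]
  let S : Fin 2 → Finset ℝ := ![(Finset.range (d + 1)).image (fun i : ℕ => ((a + i : ℕ) : ℝ)),
    (Finset.range (d + 1)).image (fun j : ℕ => (j : ℝ))]
  have hS0 : (S 0).card = d + 1 := by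
    show ((Finset.range (d + 1)).image (fun i : ℕ => ((a + i : ℕ) : ℝ))).card = d + 1
    rw [Finset.card_image_of_injective _ (fun i j hij => by
      have : a + i = a + j := by exact_mod_cast hij
      omega), Finset.card_range]
  have hS1 : (S 1).card = d + 1 := by
    show ((Finset.range (d + 1)).image (fun j : ℕ => (j : ℝ))).card = d + 1
    rw [Finset.card_image_of_injective _ Nat.cast_injective, Finset.card_range]
  have hdeg : ∀ i, (F - G).degreeOf i ≤ d := by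
    intro i
    have h1 : (F - G).totalDegree ≤ d :=
      (MvPolynomial.totalDegree_sub F G).trans (max_le hF hG)
    exact (MvPolynomial.degreeOf_le_totalDegree _ _).trans h1
  refine MvPolynomial.eq_zero_of_eval_zero_at_prod_finset (F - G) S ?_ ?_
  · intro i
    fin_cases i
    · show (F - G).degreeOf 0 < (S 0).card
      rw [hS0]
      exact Nat.lt_succ_of_le (hdeg 0)
    · show (F - G).degreeOf 1 < (S 1).card
      rw [hS1]
      exact Nat.lt_succ_of_le (hdeg 1)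
  · intro x hx
    have h0 : x 0 ∈ (Finset.range (d + 1)).image (fun i : ℕ => ((a + i : ℕ) : ℝ)) := hx 0
    have h1 : x 1 ∈ (Finset.range (d + 1)).image (fun j : ℕ => (j : ℝ)) := hx 1
    obtain ⟨i, hi, hi'⟩ := Finset.mem_image.1 h0
    obtain ⟨j, hj, hj'⟩ := Finset.mem_image.1 h1
    have hxe : x = ![((a + i : ℕ) : ℝ), ((j : ℕ) : ℝ)] := by
      funext k
      fin_cases k
      · exact hi'.symm
      · exact hj'.symm
    rw [hxe, map_sub, sub_eq_zero]
    exact h ⟨i, Finset.mem_range.1 hi⟩ ⟨j, Finset.mem_range.1 hj⟩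

theorem countable_set : {α : ℝ | 0 < α ∧ ∃ (F : MvPolynomial (Fin 2) ℝ) (E : Set ℕ),
    E.Finite ∧ PacksOff α F E}.Countable := by
  classical
  set A := {α : ℝ | 0 < α ∧ ∃ (F : MvPolynomial (Fin 2) ℝ) (E : Set ℕ),
    E.Finite ∧ PacksOff α F E} with hA
  rw [← Set.countable_coe_iff]
  choose! F E hE hP using fun (α : A) => α.2.2
  have hx0 : ∀ α : A, ∃ a : ℕ, (((F α).totalDegree : ℕ) : ℝ) ≤ (α : ℝ) * a := by
    intro α
    obtain ⟨a, ha⟩ := exists_nat_ge ((((F α).totalDegree : ℕ) : ℝ) / (α : ℝ))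
    refine ⟨a, ?_⟩
    rw [div_le_iff₀ α.2.1] at ha
    linarith [mul_comm (a : ℝ) (α : ℝ)]
  choose a ha using hx0
  have hgrid : ∀ (α : A) (i j : Fin ((F α).totalDegree + 1)),
      ∃ n : ℕ, (n : ℝ) = MvPolynomial.eval ![((a α + i : ℕ) : ℝ), ((j : ℕ) : ℝ)] (F α) := by
    intro α i j
    have h1 : (((a α + i, (j : ℕ)) : ℕ × ℕ).2 : ℝ) ≤ (α : ℝ) * ((a α + i, (j : ℕ)) : ℕ × ℕ).1 := by
      show ((j : ℕ) : ℝ) ≤ (α : ℝ) * ((a α + i : ℕ) : ℝ)
      have h2 : ((j : ℕ) : ℝ) ≤ (((F α).totalDegree : ℕ) : ℝ) := by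
        exact_mod_cast Nat.lt_succ_iff.1 j.2
      have h3 : (0 : ℝ) ≤ (α : ℝ) * ((i : ℕ) : ℝ) :=
        mul_nonneg α.2.1.le (Nat.cast_nonneg _)
      push_cast
      linarith [ha α, mul_add (α : ℝ) (a α : ℝ) ((i : ℕ) : ℝ)]
    obtain ⟨n, -, hn⟩ := (hP α).mapsTo h1
    exact ⟨n, hn⟩
  choose g hg using hgrid
  let key : A → (Σ d : ℕ, ℕ × (Fin (d + 1) → Fin (d + 1) → ℕ)) :=
    fun α => ⟨(F α).totalDegree, (a α, g α)⟩
  have hkey : ∀ α β : A, key α = key β → F α = F β := by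
    intro α β h
    have h1 : (F α).totalDegree = (F β).totalDegree := congrArg Sigma.fst h
    have main : ∀ (d d' : ℕ) (x y : ℕ) (u : Fin (d + 1) → Fin (d + 1) → ℕ)
        (w : Fin (d' + 1) → Fin (d' + 1) → ℕ),
        ((⟨d, (x, u)⟩ : Σ d : ℕ, ℕ × (Fin (d + 1) → Fin (d + 1) → ℕ)) = ⟨d', (y, w)⟩) →
        (F α).totalDegree ≤ d → (F β).totalDegree ≤ d' →
        (∀ i j, ((u i j : ℕ) : ℝ) =
          MvPolynomial.eval ![((x + i : ℕ) : ℝ), ((j : ℕ) : ℝ)] (F α)) →
        (∀ i j, ((w i j : ℕ) : ℝ) =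
          MvPolynomial.eval ![((y + i : ℕ) : ℝ), ((j : ℕ) : ℝ)] (F β)) → F α = F β := by
      intro d d' x y u w h hd hd' hu hw
      obtain ⟨rfl, h⟩ := Sigma.mk.inj_iff.1 h
      have h := eq_of_heq h
      have hx : x = y := congrArg Prod.fst h
      have hw' : u = w := congrArg Prod.snd h
      subst hx
      subst hw'
      exact ext_grid hd hd' (fun i j => by rw [← hu, ← hw])
    exact main _ _ _ _ _ _ h le_rfl le_rfl (hg α) (hg β)
  have hinj : Function.Injective key := by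
    intro α β h
    apply Subtype.ext
    have h2 := hP β
    rw [← hkey α β h] at h2
    exact unique α.2.1 β.2.1 (hE α) (hE β) (hP α) h2
  exact hinj.countable

theorem semicomputable {α : ℝ} {F : MvPolynomial (Fin 2) ℝ} {E : Set ℕ} (hα : 0 < α)
    (hE : E.Finite) (h : PacksOff α F E) :
    IsAlgebraic ℚ α ∨ REPred fun p : ℕ × ℕ => α * p.1 < p.2 := by
  obtain ⟨n0, hn0⟩ : ∃ n0 : ℕ, ∀ n, n0 ≤ n → n ∉ E := by
    obtain ⟨N, hN⟩ := hE.bddAbove
    exact ⟨N + 1, fun n hn hnE => absurd (hN hnE) (by omega)⟩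
  refine PK5.algebraic_or_re hα F n0 ?_ ?_ ?_
  · intro x y hxy
    have hin : (x, y) ∈ {P : ℕ × ℕ | (P.2 : ℝ) ≤ α * P.1} := hxy
    obtain ⟨n, _, hn⟩ := h.mapsTo hin
    exact ⟨n, hn.symm⟩
  · intro x y x' y' h1 h2 h3
    have hin : (x, y) ∈ {P : ℕ × ℕ | (P.2 : ℝ) ≤ α * P.1} := h1
    have hin' : (x', y') ∈ {P : ℕ × ℕ | (P.2 : ℝ) ≤ α * P.1} := h2
    have := h.injOn hin hin' h3
    exact ⟨congrArg Prod.fst this, congrArg Prod.snd this⟩
  · intro n hn
    obtain ⟨P, hP, hPn⟩ := h.surjOn (⟨n, hn0 n hn, rfl⟩ : (n : ℝ) ∈ (fun n : ℕ => (n : ℝ)) '' Eᶜ)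
    exact ⟨P.1, P.2, hP, hPn⟩

end Pool.Agent.Results.MP_b29235_co.AlmostAllSectors

open Pool.Agent.Results.MP_b29235_co.AlmostAllSectors in
/-- All but countably many sectors `I(α)` have no packing polynomial of any degree, even if
finitely many values may be missed; no polynomial serves two sectors; and every exceptional slope
`α` is algebraic or upper semicomputable (the pairs `(a, b)` with `α a < b` are recursively
enumerable). -/
theorem Pool.Agent.Results.MP_b29235_co.AlmostAllSectors.result :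
    {α : ℝ | 0 < α ∧ ∃ (F : MvPolynomial (Fin 2) ℝ) (E : Set ℕ),
      E.Finite ∧ PacksOff α F E}.Countable ∧
    (∀ (F : MvPolynomial (Fin 2) ℝ) (α β : ℝ) (E E' : Set ℕ), 0 < α → 0 < β → E.Finite →
      E'.Finite → PacksOff α F E → PacksOff β F E' → α = β) ∧
    ∀ (F : MvPolynomial (Fin 2) ℝ) (α : ℝ) (E : Set ℕ), 0 < α → E.Finite → PacksOff α F E →
      IsAlgebraic ℚ α ∨ REPred fun p : ℕ × ℕ => α * p.1 < p.2 :=
  ⟨countable_set, fun _ _ _ _ _ h1 h2 h3 h4 h5 h6 => unique h1 h2 h3 h4 h5 h6,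
    fun _ _ _ h1 h2 h3 => semicomputable h1 h2 h3⟩
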