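import Pool.Agent.PP72.Fin14

/-!
# Packing polynomials on irrational sectors: the leading form

Let `α > 0` be irrational, let `F` be a packing polynomial on `I(α)` of degree `d ≥ 3`, put
`f_j = F_j(1, T)` and `D = f_{d-1} ^ 2 - 4 f_d f_{d-2}`. Then `f_k` is not zero for some
`0 < k < d`, and there is a common zero `θ ∈ [0, α]` of `f_d` and `f_{d-1}`, of order `μ` in `f_d`,
such that

* `f_{d-2}(θ) ≤ 0` or `(T - θ) ^ (μ + 1)` divides `D`;
* `f_{d-2}(θ) ≥ 0` or `μ = 1`;

and one of the following holds: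

1. `μ ≥ 4`, and `μ ≥ 6` if `θ` is rational; moreover `f_{d-2}(θ) > 0` or `(T - θ) ^ 3` divides
   `f_{d-1}`;
2. `θ` is irrational, `μ ≤ 3`, and `f_d = c m ^ μ` for a rational number `c ≠ 0` and the minimal
   polynomial `m` of `θ` over `ℚ`, which has degree `d / μ ≥ 3`; if `μ ≠ 2`, then `θ = α`; if
   `μ = 1`, then `f_{d-1} = 0`, and `f_{d-2}(α) < 0` or `f_{d-2} = 0`; for some `K` infinitely many
   `(x, y)` in `I(α)` satisfy `|y - θ x| ≤ K` and `F(x, y) ≤ K (log x) ^ 2`; and there are real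
   algebraic numbers `s`, `t` such that `|x (y - θ x - s) - t| < x ^ (-1/4)` for nonnegative
   integers `x`, `y` with `x` arbitrarily large.

(By Schmidt's subspace theorem, applied to `(x², x y, y², x, y, 1)`, the last assertion of 2 cannot
hold. This theorem is not used here.)
-/

open Polynomial

theorem Pool.Agent.Results.MP_b29235_co.LeadingForm.result
    (α : ℝ) (hα : 0 < α) (hirr : Irrational α) (F : MvPolynomial (Fin 2) ℝ)
    (hd : 3 ≤ F.totalDegree) (hF : PP72.IsPacking α F) :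
    (∃ k, 0 < k ∧ k < F.totalDegree ∧ PP72.formPoly F k ≠ 0) ∧
    ∃ θ ∈ Set.Icc 0 α, (PP72.formPoly F F.totalDegree).eval θ = 0 ∧
      (PP72.formPoly F (F.totalDegree - 1)).eval θ = 0 ∧
      ((PP72.formPoly F (F.totalDegree - 2)).eval θ ≤ 0 ∨
        (X - C θ) ^ ((PP72.formPoly F F.totalDegree).rootMultiplicity θ + 1) ∣
          PP72.formPoly F (F.totalDegree - 1) ^ 2 -
            4 * PP72.formPoly F F.totalDegree * PP72.formPoly F (F.totalDegree - 2)) ∧
      (0 ≤ (PP72.formPoly F (F.totalDegree - 2)).eval θ ∨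
        (PP72.formPoly F F.totalDegree).rootMultiplicity θ = 1) ∧
      (((((∃ r : ℚ, θ = r) ∧ 6 ≤ (PP72.formPoly F F.totalDegree).rootMultiplicity θ) ∨
          (Irrational θ ∧ 4 ≤ (PP72.formPoly F F.totalDegree).rootMultiplicity θ)) ∧
          (0 < (PP72.formPoly F (F.totalDegree - 2)).eval θ ∨
            (X - C θ) ^ 3 ∣ PP72.formPoly F (F.totalDegree - 1))) ∨
        (Irrational θ ∧ (PP72.formPoly F F.totalDegree).rootMultiplicity θ ≤ 3 ∧
          3 ≤ (minpoly ℚ θ).natDegree ∧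
          F.totalDegree =
            (PP72.formPoly F F.totalDegree).rootMultiplicity θ * (minpoly ℚ θ).natDegree ∧
          (∃ c : ℚ, c ≠ 0 ∧ PP72.formPoly F F.totalDegree =
            (C c * minpoly ℚ θ ^ (PP72.formPoly F F.totalDegree).rootMultiplicity θ).map
              (algebraMap ℚ ℝ)) ∧
          ((PP72.formPoly F F.totalDegree).rootMultiplicity θ ≠ 2 → θ = α) ∧
          ((PP72.formPoly F F.totalDegree).rootMultiplicity θ = 1 →
            PP72.formPoly F (F.totalDegree - 1) = 0 ∧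
              ((PP72.formPoly F (F.totalDegree - 2)).eval α < 0 ∨
                PP72.formPoly F (F.totalDegree - 2) = 0)) ∧
          (∃ K : ℝ, ∀ X0 : ℕ, ∃ x y : ℕ, X0 < x ∧ (y : ℝ) ≤ α * x ∧
            |(y : ℝ) - θ * x| ≤ K ∧
            MvPolynomial.eval ![(x : ℝ), (y : ℝ)] F ≤ K * Real.log x ^ 2) ∧
          (∃ s t : ℝ, IsAlgebraic ℚ s ∧ IsAlgebraic ℚ t ∧ ∀ X0 : ℕ, ∃ x y : ℕ, X0 < x ∧
            (x : ℝ) * (x * (y - θ * x - s) - t) ^ 4 < 1))) :=
  PP72.structure_final5 hα hirr F hd hF
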