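import Pool.Agent.PP72.Fin14

/-!
# Packing polynomials of degree three, four and five on irrational sectors

Let `α > 0` be irrational and let `F` be a packing polynomial on `I(α)` of degree `d = 3`, `4` or
`5`; put `f_j = F_j(1, T)`. Then

* `α` is algebraic over `ℚ` of degree exactly `d`;
* `f_d = c m`, where `c` is a nonzero rational number and `m` is the minimal polynomial of `α`,
  that is, `F_d(x, y) = c N(y - α x)` with the norm of `ℚ(α) / ℚ`;
* `f_{d-1} = 0` and `f_d'(α) < 0`;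
* `f_{d-2}(α) < 0`, or `d ≥ 4`, `f_{d-2} = 0` and `f_k` is not zero for some `0 < k < d - 2`.

Moreover `ρ = f_{d-2}(α) / f_d'(α)` belongs to `ℚ(α)`, the lower limit of `x (α x - y)` over `I(α)`
is at least `ρ`, and for some `K` infinitely many `(x, y)` in `I(α)` satisfy
`F(x, y) ≤ K (log x) ^ 2` and `|x (α x - y) - ρ| ≤ K (log x) ^ 2 / x`.

(By Schmidt's subspace theorem, applied to `(x², x y, y², x, y, 1)`, the last assertion cannot hold
for an algebraic number `α` of degree at least `3` and an algebraic number `ρ`. This theorem is not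
used here.)
-/

open Polynomial

theorem Pool.Agent.Results.MP_b29235_co.NormFormOnly.result
    (α : ℝ) (hα : 0 < α) (hirr : Irrational α) (F : MvPolynomial (Fin 2) ℝ)
    (hd3 : 3 ≤ F.totalDegree) (hd5 : F.totalDegree ≤ 5) (hF : PP72.IsPacking α F) :
    (minpoly ℚ α).natDegree = F.totalDegree ∧
      (∃ c : ℚ, c ≠ 0 ∧
        PP72.formPoly F F.totalDegree = (C c * minpoly ℚ α).map (algebraMap ℚ ℝ)) ∧
      PP72.formPoly F (F.totalDegree - 1) = 0 ∧
      ((PP72.formPoly F (F.totalDegree - 2)).eval α < 0 ∨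
        (4 ≤ F.totalDegree ∧ PP72.formPoly F (F.totalDegree - 2) = 0 ∧
          ∃ k, 0 < k ∧ k < F.totalDegree - 2 ∧ PP72.formPoly F k ≠ 0)) ∧
      (derivative (PP72.formPoly F F.totalDegree)).eval α < 0 ∧
      ∃ ρ K : ℝ, ρ = (PP72.formPoly F (F.totalDegree - 2)).eval α /
          (derivative (PP72.formPoly F F.totalDegree)).eval α ∧
        ρ ∈ IntermediateField.adjoin ℚ {α} ∧
        (∀ ε : ℝ, 0 < ε → ∃ X0 : ℕ, ∀ x y : ℕ, X0 < x → (y : ℝ) ≤ α * x →
          ρ - ε < x * (α * x - y)) ∧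
        (∀ X0 : ℕ, ∃ x y : ℕ, X0 < x ∧ (y : ℝ) ≤ α * x ∧
          MvPolynomial.eval ![(x : ℝ), (y : ℝ)] F ≤ K * Real.log x ^ 2 ∧
          |x * (α * x - y) - ρ| ≤ K * Real.log x ^ 2 / x) :=
  PP72.low_degree14 hα hirr F hd3 hd5 hF
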